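import Pool.Agent.Y336.RW.Stm

/-! Classes modulo squares on `y² = x (x + 5) (x - 5)` (helper50, project RW of helper336). -/

set_option autoImplicit false

open WeierstrassCurve

namespace Pool.Agent.Y50.RW

open Pool.Agent.Y336.RW Pool.Agent.H437R2.Man.MW

theorem e12 : (0 : ℚ) ≠ 5 := by norm_num
theorem e13 : (0 : ℚ) ≠ -5 := by norm_num
theorem e23 : (5 : ℚ) ≠ -5 := by norm_num

theorem xRep_eq (T : E) (hT : T ≠ 0) : T.xRep = ![xc T, 1] := by
  match T, hT with
  | .zero, h => exact absurd rfl h
  | .some x y h, _ => exact Affine.Point.xRep_some h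

theorem cls : Cls := by
  refine ⟨?_, ?_⟩
  · intro R S hR hS hRS e he
    match R, S, hR, hS, hRS with
    | .zero, _, h, _, _ => exact absurd rfl h
    | _, .zero, _, h, _ => exact absurd rfl h
    | .some x1 y1 h1, .some x2 y2 h2, _, _, hRS =>
      have q1 : y1 ^ 2 = (x1 + 0) * (x1 + 5) * (x1 + -5) := crv_eqn.mp h1.1
      have q2 : y2 ^ 2 = (x2 + 0) * (x2 + 5) * (x2 + -5) := crv_eqn.mp h2.1
      change IsSquare ((x1 - e) * (x2 - e) *
        (xc ((Affine.Point.some x1 y1 h1 : E) + (Affine.Point.some x2 y2 h2 : E)) - e))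
      have hrep := xRep_eq _ hRS
      by_cases hx : x1 = x2
      · subst hx
        have hyy : y1 = y2 ∨ y1 = -y2 := by
          apply sq_eq_sq_iff_eq_or_eq_neg.mp
          rw [q1, q2]
        have hneg : y1 ≠ -y2 := by
          intro hyy
          apply hRS
          apply Affine.Point.add_of_Y_eq rfl
          simp only [Affine.negY, crv]
          linear_combination hyy
        have hy12 : y1 = y2 := hyy.resolve_right hneg
        subst hy12
        have hy : y1 ≠ 0 := by
          intro h0
          apply hneg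
          rw [h0, neg_zero]
        have hd := xRep_double h1 hy
        rw [hd] at hrep
        have hX := congrFun hrep 0
        simp only [Matrix.cons_val_zero] at hX
        rw [← hX]
        have h4 : (4 * y1 ^ 2 : ℚ) ≠ 0 := by positivity
        rcases he with rfl | rfl | rfl
        · refine ⟨x1 * (x1 ^ 2 + 25) / (2 * y1), ?_⟩
          field_simp
          ring
        · refine ⟨(x1 - 5) * (x1 ^ 2 - 10 * x1 - 25) / (2 * y1), ?_⟩
          field_simp
          linear_combination (-80 * (x1 - 5) ^ 2) * q1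
        · refine ⟨(x1 + 5) * (x1 ^ 2 + 10 * x1 - 25) / (2 * y1), ?_⟩
          field_simp
          linear_combination (80 * (x1 + 5) ^ 2) * q1
      · have hx' : x1 - x2 ≠ 0 := sub_ne_zero.mpr hx
        have hd := xRep_add h1 h2 hx
        rw [hd] at hrep
        have hX := congrFun hrep 0
        simp only [Matrix.cons_val_zero] at hX
        rw [← hX]
        refine ⟨(y1 * (x2 - e) - y2 * (x1 - e)) / (x1 - x2), ?_⟩
        unfold numr
        rcases he with rfl | rfl | rfl
        · field_simp
          linear_combination (-(x2 - 0) ^ 2) * q1 + (-(x1 - 0) ^ 2) * q2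
        · field_simp
          linear_combination (-(x2 - 5) ^ 2) * q1 + (-(x1 - 5) ^ 2) * q2
        · field_simp
          linear_combination (-(x2 + 5) ^ 2) * q1 + (-(x1 + 5) ^ 2) * q2
  · intro R S hR hS hyR hyS s1 s2 s3
    match R, S, hR, hS, hyR, hyS, s1, s2, s3 with
    | .zero, _, h, _, _, _, _, _, _ => exact absurd rfl h
    | _, .zero, _, h, _, _, _, _, _ => exact absurd rfl h
    | .some x1 y1 h1, .some x2 y2 h2, _, _, hyR, hyS, s1, s2, s3 =>
      have q1 : y1 ^ 2 = (x1 + 0) * (x1 + 5) * (x1 + -5) := crv_eqn.mp h1.1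
      have q2 : y2 ^ 2 = (x2 + 0) * (x2 + 5) * (x2 + -5) := crv_eqn.mp h2.1
      change y1 ≠ 0 at hyR
      change y2 ≠ 0 at hyS
      change IsSquare (x1 * x2) at s1
      change IsSquare ((x1 - 5) * (x2 - 5)) at s2
      change IsSquare ((x1 + 5) * (x2 + 5)) at s3
      have n1 : (x1 + 0) * (x1 + 5) * (x1 + -5) ≠ 0 := by rw [← q1]; exact pow_ne_zero _ hyR
      have n2 : (x2 + 0) * (x2 + 5) * (x2 + -5) ≠ 0 := by rw [← q2]; exact pow_ne_zero _ hyS
      have a1 : x1 ≠ 0 := fun h => n1 (by rw [h]; ring)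
      have a2 : x1 + 5 ≠ 0 := fun h => n1 (by rw [h]; ring)
      have a3 : x1 - 5 ≠ 0 := fun h => n1 (by
        have : x1 + -5 = 0 := by linarith
        rw [this]; ring)
      have b1 : x2 ≠ 0 := fun h => n2 (by rw [h]; ring)
      have b2 : x2 + 5 ≠ 0 := fun h => n2 (by rw [h]; ring)
      have b3 : x2 - 5 ≠ 0 := fun h => n2 (by
        have : x2 + -5 = 0 := by linarith
        rw [this]; ring)
      obtain ⟨r1, hr1⟩ := s1
      obtain ⟨r3, hr3⟩ := s2
      obtain ⟨r2, hr2⟩ := s3
      have c1 : r1 ≠ 0 := by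
        intro h; rw [h, zero_mul] at hr1; exact mul_ne_zero a1 b1 hr1
      have c2 : r2 ≠ 0 := by
        intro h; rw [h, zero_mul] at hr2; exact mul_ne_zero a2 b2 hr2
      have c3 : r3 ≠ 0 := by
        intro h; rw [h, zero_mul] at hr3; exact mul_ne_zero a3 b3 hr3
      obtain ⟨Q, hQ⟩ := add_double e12 e13 e23 h1 h2 c1 c2 c3 (by linear_combination hr1)
        (by linear_combination hr2) (by linear_combination hr3)
      exact ⟨Q, hQ.symm⟩

end Pool.Agent.Y50.RW
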